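import Mathlib

set_option autoImplicit false

namespace Pool.Agent.Results.MP_4ee71e_co.RigidSubgraphsOfCubes

/-- Global rigidity on the line, in the injective sense: whenever two injective placements of the
vertices on the real line give every edge the same length, they give every pair of vertices the
same distance. -/
def GloballyRigid {W : Type} (H : SimpleGraph W) : Prop :=
  ∀ f g : W → ℝ, Function.Injective f → Function.Injective g →
    (∀ u v : W, H.Adj u v → |f u - f v| = |g u - g v|) →
    ∀ u v : W, |f u - f v| = |g u - g v|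

/-- Balanced ternary uniqueness: a vanishing signed sum of distinct powers of three is trivial. -/
theorem ternary (m : ℕ) : ∀ δ : ℕ → ℤ, (∀ k, |δ k| ≤ 1) →
    ∑ k ∈ Finset.range m, δ k * 3 ^ k = 0 → ∀ k < m, δ k = 0 := by
  induction m with
  | zero => intro δ _ _ k hk; omega
  | succ m ih =>
    intro δ hδ hs k hk
    rw [Finset.sum_range_succ'] at hs
    have h1 : ∑ k ∈ Finset.range m, δ (k + 1) * 3 ^ (k + 1) =
        3 * ∑ k ∈ Finset.range m, δ (k + 1) * 3 ^ k := by
      rw [Finset.mul_sum]
      refine Finset.sum_congr rfl fun i _ => ?_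
      ring
    rw [h1] at hs
    have h0 : |δ 0| ≤ 1 := hδ 0
    rw [abs_le] at h0
    have h2 : δ 0 = 0 := by
      simp only [pow_zero, mul_one] at hs
      omega
    have h3 : ∑ k ∈ Finset.range m, δ (k + 1) * 3 ^ k = 0 := by
      rw [h2] at hs
      simp only [zero_mul, add_zero] at hs
      omega
    have h4 := ih (fun k => δ (k + 1)) (fun k => hδ (k + 1)) h3
    rcases k with _ | k
    · exact h2
    · exact h4 k (by omega)

/-- The same for sums over `Fin m`. -/
theorem ternaryFin (m : ℕ) (δ : Fin m → ℤ) (hδ : ∀ k, |δ k| ≤ 1)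
    (hs : ∑ k : Fin m, δ k * 3 ^ (k : ℕ) = 0) : ∀ k, δ k = 0 := by
  intro k
  have h := ternary m (fun j => if h : j < m then δ ⟨j, h⟩ else 0)
    (by
      intro j
      by_cases h : j < m
      · simp only [h, dite_true]; exact hδ _
      · simp [h])
    (by
      rw [← Fin.sum_univ_eq_sum_range (fun j => (if h : j < m then δ ⟨j, h⟩ else 0) * 3 ^ j) m]
      rw [← hs]
      refine Finset.sum_congr rfl fun i _ => ?_
      simp)
  have := h k k.isLt
  simpa using this

/-- Indicator of a Boolean as an integer. -/
def bi (b : Bool) : ℤ := if b then 1 else 0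

theorem bi_sub (a b : Bool) : |bi a - bi b| ≤ 1 := by
  cases a <;> cases b <;> simp [bi]

theorem bi_inj {a b : Bool} (h : bi a - bi b = 0) : a = b := by
  cases a <;> cases b <;> simp_all [bi]

/-- Placement of the cube on the line: coordinate `k` has weight `s k * 3 ^ k`. -/
def place (m : ℕ) (s : Fin m → ℤ) (x : Fin m → Bool) : ℤ :=
  ∑ k : Fin m, s k * bi (x k) * 3 ^ (k : ℕ)

theorem place_sub (m : ℕ) (s : Fin m → ℤ) (x y : Fin m → Bool) :
    place m s x - place m s y = ∑ k : Fin m, (s k * (bi (x k) - bi (y k))) * 3 ^ (k : ℕ) := by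
  unfold place
  rw [← Finset.sum_sub_distrib]
  refine Finset.sum_congr rfl fun i _ => ?_
  ring

theorem place_inj (m : ℕ) (s : Fin m → ℤ) (hs : ∀ k, |s k| = 1) :
    Function.Injective (place m s) := by
  intro x y hxy
  have h : ∑ k : Fin m, (s k * (bi (x k) - bi (y k))) * 3 ^ (k : ℕ) = 0 := by
    rw [← place_sub, hxy, sub_self]
  have h2 := ternaryFin m _ (fun k => by rw [abs_mul, hs k, one_mul]; exact bi_sub _ _) h
  funext k
  have h3 := h2 k
  have h4 : s k ≠ 0 := by
    intro h0
    have := hs k
    rw [h0] at this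
    simp at this
  exact bi_inj ((mul_eq_zero.mp h3).resolve_left h4)

/-- Sign vector with a single minus sign at `i`. -/
def sg (m : ℕ) (i : Fin m) (k : Fin m) : ℤ := if k = i then -1 else 1

theorem sg_abs (m : ℕ) (i k : Fin m) : |sg m i k| = 1 := by
  unfold sg; split <;> simp

/-- If two vertices differ at `i` and at `j ≠ i`, then flipping the sign of coordinate `i`
changes their distance. -/
theorem dist_ne (m : ℕ) (x y : Fin m → Bool) (i j : Fin m) (hij : i ≠ j)
    (hi : x i ≠ y i) (hj : x j ≠ y j) :
    |place m (fun _ => 1) x - place m (fun _ => 1) y| ≠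
      |place m (sg m i) x - place m (sg m i) y| := by
  intro h
  rw [place_sub, place_sub] at h
  rw [abs_eq_abs] at h
  rcases h with h | h
  · have h1 : ∑ k : Fin m, (if k = i then (bi (x k) - bi (y k)) else 0) * 3 ^ (k : ℕ) = 0 := by
      have h2 : ∑ k : Fin m, (2 * (if k = i then (bi (x k) - bi (y k)) else 0)) *
          3 ^ (k : ℕ) = 0 := by
        rw [← sub_eq_zero, ← Finset.sum_sub_distrib] at h
        refine Eq.trans (Finset.sum_congr rfl fun k _ => ?_) h
        unfold sg
        split <;> ring
      have h3 : ∑ k : Fin m, (2 * (if k = i then (bi (x k) - bi (y k)) else 0)) * 3 ^ (k : ℕ)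
          = 2 * ∑ k : Fin m, (if k = i then (bi (x k) - bi (y k)) else 0) * 3 ^ (k : ℕ) := by
        rw [Finset.mul_sum]
        refine Finset.sum_congr rfl fun k _ => ?_
        ring
      omega
    have h4 := ternaryFin m _ (fun k => by
      split
      · exact bi_sub _ _
      · simp) h1 i
    simp only [if_true] at h4
    exact hi (bi_inj h4)
  · have h1 : ∑ k : Fin m, (if k = i then 0 else (bi (x k) - bi (y k))) * 3 ^ (k : ℕ) = 0 := by
      have h2 : ∑ k : Fin m, (2 * (if k = i then 0 else (bi (x k) - bi (y k)))) *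
          3 ^ (k : ℕ) = 0 := by
        rw [← sub_eq_zero, sub_neg_eq_add, ← Finset.sum_add_distrib] at h
        refine Eq.trans (Finset.sum_congr rfl fun k _ => ?_) h
        unfold sg
        split <;> ring
      have h3 : ∑ k : Fin m, (2 * (if k = i then 0 else (bi (x k) - bi (y k)))) * 3 ^ (k : ℕ)
          = 2 * ∑ k : Fin m, (if k = i then 0 else (bi (x k) - bi (y k))) * 3 ^ (k : ℕ) := by
        rw [Finset.mul_sum]
        refine Finset.sum_congr rfl fun k _ => ?_
        ring
      omega
    have h4 := ternaryFin m _ (fun k => by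
      split
      · simp
      · exact bi_sub _ _) h1 j
    simp only [hij.symm, if_false] at h4
    exact hj (bi_inj h4)

/-- If two vertices differ in exactly one coordinate, their distance does not depend on signs. -/
theorem dist_eq (m : ℕ) (x y : Fin m → Bool) (i l : Fin m)
    (hl : ∀ k, k ≠ l → x k = y k) :
    |place m (fun _ => 1) x - place m (fun _ => 1) y| =
      |place m (sg m i) x - place m (sg m i) y| := by
  rw [place_sub, place_sub]
  rw [Finset.sum_eq_single l, Finset.sum_eq_single l]
  · rw [abs_mul, abs_mul, abs_mul, abs_mul, sg_abs]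
    simp
  · intro k _ hk
    rw [hl k hk]; simp
  · intro h; exact absurd (Finset.mem_univ _) h
  · intro k _ hk
    rw [hl k hk]; simp
  · intro h; exact absurd (Finset.mem_univ _) h

/-- The `m`-dimensional cube: two vertices are adjacent when they differ in exactly one
coordinate. -/
def cube (m : ℕ) : SimpleGraph (Fin m → Bool) where
  Adj a b := ∃ i : Fin m, a i ≠ b i ∧ ∀ k, k ≠ i → a k = b k
  symm := ⟨by
    rintro a b ⟨i, h1, h2⟩
    exact ⟨i, fun h => h1 h.symm, fun k hk => (h2 k hk).symm⟩⟩
  loopless := ⟨by
    rintro a ⟨i, h1, _⟩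
    exact h1 rfl⟩

/-- Flip one coordinate. -/
def flip (m : ℕ) (a : Fin m → Bool) (i : Fin m) : Fin m → Bool :=
  Function.update a i (!(a i))

theorem adj_flip (m : ℕ) (a : Fin m → Bool) (i : Fin m) : (cube m).Adj a (flip m a i) := by
  refine ⟨i, ?_, ?_⟩
  · simp [flip]
  · intro k hk
    simp [flip, Function.update_of_ne hk]

theorem flip_inj (m : ℕ) (a : Fin m → Bool) : Function.Injective (flip m a) := by
  intro i j hij
  by_contra hne
  have h := congrFun hij i
  simp only [flip] at h
  rw [Function.update_self, Function.update_of_ne hne] at h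
  simp at h

theorem two_mul_edges (m : ℕ) : m * 2 ^ m ≤ 2 * (cube m).edgeSet.ncard := by
  classical
  have h1 := (cube m).sum_degrees_eq_twice_card_edges
  have h2 : ∀ a, m ≤ (cube m).degree a := by
    intro a
    have : (Finset.univ.image (flip m a)) ⊆ (cube m).neighborFinset a := by
      intro b hb
      rw [Finset.mem_image] at hb
      obtain ⟨i, _, rfl⟩ := hb
      rw [SimpleGraph.mem_neighborFinset]
      exact adj_flip m a i
    have h3 := Finset.card_le_card this
    rw [Finset.card_image_of_injective _ (flip_inj m a)] at h3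
    simpa using h3
  have h4 : ∑ a : Fin m → Bool, m ≤ ∑ a : Fin m → Bool, (cube m).degree a :=
    Finset.sum_le_sum fun a _ => h2 a
  rw [h1] at h4
  have h5 : (cube m).edgeSet.ncard = (cube m).edgeFinset.card := by
    rw [← SimpleGraph.coe_edgeFinset, Set.ncard_coe_finset]
  rw [h5]
  simp only [Finset.sum_const, Finset.card_univ, Fintype.card_pi, Fintype.card_bool,
    Finset.prod_const, Fintype.card_fin, smul_eq_mul] at h4
  linarith [mul_comm m (2 ^ m)]

/-- Any two vertices of a subgraph of the cube that is globally rigid on the line agree in all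
but at most one coordinate. -/
theorem rigid_close (m : ℕ) (H : (cube m).Subgraph) (hH : GloballyRigid H.coe)
    (u v : Fin m → Bool) (hu : u ∈ H.verts) (hv : v ∈ H.verts) (i j : Fin m)
    (hi : u i ≠ v i) (hj : u j ≠ v j) : i = j := by
  by_contra hij
  have inj : ∀ s : Fin m → ℤ, (∀ k, |s k| = 1) →
      Function.Injective (fun a : H.verts => ((place m s a.1 : ℤ) : ℝ)) := by
    intro s hs a b hab
    simp only [Int.cast_inj] at hab
    exact Subtype.ext (place_inj m s hs hab)
  have key := hH (fun a => ((place m (fun _ => 1) a.1 : ℤ) : ℝ))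
    (fun a => ((place m (sg m i) a.1 : ℤ) : ℝ))
    (inj _ (fun _ => by simp)) (inj _ (sg_abs m i))
    (by
      intro a b hab
      obtain ⟨l, _, h2⟩ := H.adj_sub hab
      have := dist_eq m a.1 b.1 i l h2
      exact_mod_cast this)
    ⟨u, hu⟩ ⟨v, hv⟩
  have key2 : |place m (fun _ => 1) u - place m (fun _ => 1) v| =
      |place m (sg m i) u - place m (sg m i) v| := by
    exact_mod_cast key
  exact dist_ne m _ _ i j hij hi hj key2

/-- A globally rigid subgraph of the cube has at most two vertices. -/
theorem rigid_card (m : ℕ) (H : (cube m).Subgraph) (hH : GloballyRigid H.coe) :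
    H.verts.ncard ≤ 2 := by
  by_contra hcard
  push Not at hcard
  obtain ⟨u, v, w, hu, hv, hw, huv, huw, hvw⟩ :=
    (Set.two_lt_ncard_iff (Set.toFinite _)).mp hcard
  have ex : ∀ a b : Fin m → Bool, a ≠ b → ∃ i, a i ≠ b i := by
    intro a b hab
    by_contra hno
    push Not at hno
    exact hab (funext hno)
  obtain ⟨i, hi⟩ := ex u v huv
  obtain ⟨j, hj⟩ := ex v w hvw
  obtain ⟨l, hl⟩ := ex u w huw
  by_cases hij : i = j
  · subst hij
    have e1 : u i = w i := by
      revert hi hj
      cases u i <;> cases v i <;> cases w i <;> simp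
    have hli : l ≠ i := by
      rintro rfl
      exact hl e1
    have e2 : u l = v l := by
      by_contra h
      exact hli (rigid_close m H hH u v hu hv l i h hi)
    have e3 : v l = w l := by
      by_contra h
      exact hli (rigid_close m H hH v w hv hw l i h hj)
    exact hl (e2.trans e3)
  · have e1 : v i = w i := by
      by_contra h
      exact hij (rigid_close m H hH v w hv hw i j h hj)
    have e2 : u j = v j := by
      by_contra h
      exact hij (rigid_close m H hH u v hu hv i j hi h)
    exact hij (rigid_close m H hH u w hu hw i j (by rw [← e1]; exact hi) (by rw [e2]; exact hj))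

/-- For every `c > 0` there is a finite graph with at least one edge in which every subgraph that
is globally rigid on the line has at most two vertices and fewer than `c * |E| / |V|` vertices. -/
theorem result : ∀ c : ℝ, 0 < c →
    ∃ (V : Type) (_ : Fintype V) (G : SimpleGraph V), G.edgeSet.Nonempty ∧
      ∀ H : G.Subgraph, GloballyRigid H.coe →
        H.verts.ncard ≤ 2 ∧
        (H.verts.ncard : ℝ) < c * (G.edgeSet.ncard : ℝ) / (Fintype.card V : ℝ) := by
  intro c hc
  obtain ⟨m, hm⟩ := exists_nat_gt (4 / c)
  have hm0 : 0 < m := by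
    rcases Nat.eq_zero_or_pos m with h0 | h0
    · rw [h0] at hm
      have : 0 < 4 / c := by positivity
      simp at hm
      linarith
    · exact h0
  refine ⟨Fin m → Bool, inferInstance, cube m, ⟨s(fun _ => false, flip m (fun _ => false) ⟨0, hm0⟩),
    by
      rw [SimpleGraph.mem_edgeSet]
      exact adj_flip m _ _⟩, ?_⟩
  intro H hH
  have h1 := rigid_card m H hH
  refine ⟨h1, ?_⟩
  have h2 := two_mul_edges m
  have h3 : ((m : ℝ) * 2 ^ m) ≤ 2 * ((cube m).edgeSet.ncard : ℝ) := by exact_mod_cast h2
  have h4 : (H.verts.ncard : ℝ) ≤ 2 := by exact_mod_cast h1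
  have h5 : (0 : ℝ) < 2 ^ m := by positivity
  have hcard : (Fintype.card (Fin m → Bool) : ℝ) = 2 ^ m := by
    simp
  rw [hcard, lt_div_iff₀ h5]
  have h8 : 4 < c * m := by
    rw [div_lt_iff₀ hc] at hm
    linarith
  nlinarith

end Pool.Agent.Results.MP_4ee71e_co.RigidSubgraphsOfCubes
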